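import Pool.Agent.Helper8_HK.Stmt2

/-! Module TAY of squad HK: the Taylor operators. -/

namespace Pool.Agent.HK.H1

open MvPolynomial

section

variable {r : ℕ} {k : Type} [Field k]

theorem tay_C (c : k) : (tay (C c : MvPolynomial (Ix r) k)) = C (C c) := by
  unfold tay
  exact AlgHom.commutes _ c

theorem tay_X (j : Ix r) : (tay (X j : MvPolynomial (Ix r) k)) = C (X j) + X j.2 := by
  unfold tay
  rw [MvPolynomial.aeval_X]

theorem dd_add (κ : ZMod r →₀ ℕ) (P Q : MvPolynomial (Ix r) k) :
    DD κ (P + Q) = DD κ P + DD κ Q := by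
  unfold DD
  rw [map_add, MvPolynomial.coeff_add]

theorem dd_C_mul (κ : ZMod r →₀ ℕ) (c : k) (P : MvPolynomial (Ix r) k) :
    DD κ (C c * P) = C c * DD κ P := by
  unfold DD
  rw [map_mul, tay_C, MvPolynomial.coeff_C_mul]

theorem dd_mul_X (κ : ZMod r →₀ ℕ) (P : MvPolynomial (Ix r) k) (j : Ix r) :
    DD κ (P * X j) = DD κ P * X j +
      (if j.2 ∈ κ.support then DD (κ - Finsupp.single j.2 1) P else 0) := by
  unfold DD
  rw [map_mul, tay_X, mul_add, MvPolynomial.coeff_add, MvPolynomial.coeff_mul_X',
    mul_comm (tay P) (C (X j)), MvPolynomial.coeff_C_mul, mul_comm (X j)]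

theorem dd_C [DecidableEq (ZMod r →₀ ℕ)] (κ : ZMod r →₀ ℕ) (c : k) :
    DD κ (C c : MvPolynomial (Ix r) k) = if κ = 0 then C c else 0 := by
  unfold DD
  rw [tay_C, MvPolynomial.coeff_C]
  by_cases h : κ = 0
  · simp [h]
  · rw [if_neg h, if_neg (fun h' => h h'.symm)]

theorem dd_zero (P : MvPolynomial (Ix r) k) : DD 0 P = P := by
  classical
  induction P using MvPolynomial.induction_on with
  | C a => rw [dd_C, if_pos rfl]
  | add p q hp hq => rw [dd_add, hp, hq]
  | mul_X p j hp =>
    rw [dd_mul_X, hp, if_neg (by simp), add_zero]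

theorem dd_sum {ι : Type} (κ : ZMod r →₀ ℕ) (s : Finset ι) (f : ι → MvPolynomial (Ix r) k) :
    DD κ (∑ i ∈ s, f i) = ∑ i ∈ s, DD κ (f i) := by
  unfold DD
  rw [map_sum, MvPolynomial.coeff_sum]

/-- The scalar of the composition rule. -/
noncomputable def bin [NeZero r] (κ κ' : ZMod r →₀ ℕ) : k :=
  ∏ s, (((κ s + κ' s).choose (κ s) : ℕ) : k)

theorem dd_comp [NeZero r] (P : MvPolynomial (Ix r) k) : ∀ (κ κ' : ZMod r →₀ ℕ),
    DD κ (DD κ' P) = C (bin κ κ') * DD (κ + κ') P := by
  classical
  induction P using MvPolynomial.induction_on with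
  | C a =>
    intro κ κ'
    rw [dd_C, dd_C]
    by_cases h' : κ' = 0
    · rw [if_pos h', dd_C]
      by_cases h : κ = 0
      · rw [if_pos h, if_pos (by rw [h, h', add_zero])]
        simp [bin, h, h']
      · rw [if_neg h, if_neg (by rw [h', add_zero]; exact h), mul_zero]
    · rw [if_neg h', if_neg (by
        intro h
        apply h'
        ext s
        have := DFunLike.congr_fun h s
        simp only [Finsupp.coe_add, Pi.add_apply, Finsupp.coe_zero, Pi.zero_apply] at this
        simp only [Finsupp.coe_zero, Pi.zero_apply]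
        omega), mul_zero]
      unfold DD
      rw [map_zero, MvPolynomial.coeff_zero]
  | add p q hp hq =>
    intro κ κ'
    rw [dd_add, dd_add, dd_add, hp, hq, mul_add]
  | mul_X p j hp =>
    intro κ κ'
    have key : ∀ (κ κ' : ZMod r →₀ ℕ) (s : ZMod r),
        (C (bin κ κ') : MvPolynomial (Ix r) k) * (if s ∈ (κ + κ').support then
          DD (κ + κ' - Finsupp.single s 1) p else 0) =
        (if s ∈ κ.support then C (bin (κ - Finsupp.single s 1) κ') *
          DD (κ + κ' - Finsupp.single s 1) p else 0) +
        (if s ∈ κ'.support then C (bin κ (κ' - Finsupp.single s 1)) *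
          DD (κ + κ' - Finsupp.single s 1) p else 0) := by
      intro κ κ' s
      have hb : ∀ (κ κ' : ZMod r →₀ ℕ), (bin κ κ' : k) =
          (((κ s + κ' s).choose (κ s) : ℕ) : k) *
            ∏ t ∈ Finset.univ.erase s, (((κ t + κ' t).choose (κ t) : ℕ) : k) := by
        intro κ κ'
        unfold bin
        exact (Finset.mul_prod_erase Finset.univ
          (fun t => (((κ t + κ' t).choose (κ t) : ℕ) : k)) (Finset.mem_univ s)).symm
      have hp1 : ∏ t ∈ Finset.univ.erase s,
          ((((κ - Finsupp.single s 1 : ZMod r →₀ ℕ) t + κ' t).choose ((κ - Finsupp.single s 1 : ZMod r →₀ ℕ) t) : ℕ) : k) =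
          ∏ t ∈ Finset.univ.erase s, (((κ t + κ' t).choose (κ t) : ℕ) : k) := by
        apply Finset.prod_congr rfl
        intro t ht
        have hts : t ≠ s := (Finset.mem_erase.mp ht).1
        have : (κ - Finsupp.single s 1 : ZMod r →₀ ℕ) t = κ t := by
          rw [Finsupp.tsub_apply, Finsupp.single_apply, if_neg (fun h => hts h.symm),
            Nat.sub_zero]
        rw [this]
      have hp2 : ∏ t ∈ Finset.univ.erase s,
          (((κ t + (κ' - Finsupp.single s 1 : ZMod r →₀ ℕ) t).choose (κ t) : ℕ) : k) =
          ∏ t ∈ Finset.univ.erase s, (((κ t + κ' t).choose (κ t) : ℕ) : k) := by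
        apply Finset.prod_congr rfl
        intro t ht
        have hts : t ≠ s := (Finset.mem_erase.mp ht).1
        have : (κ' - Finsupp.single s 1 : ZMod r →₀ ℕ) t = κ' t := by
          rw [Finsupp.tsub_apply, Finsupp.single_apply, if_neg (fun h => hts h.symm),
            Nat.sub_zero]
        rw [this]
      have e1 : (κ - Finsupp.single s 1 : ZMod r →₀ ℕ) s = κ s - 1 := by
        rw [Finsupp.tsub_apply, Finsupp.single_eq_same]
      have e2 : (κ' - Finsupp.single s 1 : ZMod r →₀ ℕ) s = κ' s - 1 := by
        rw [Finsupp.tsub_apply, Finsupp.single_eq_same]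
      simp only [Finsupp.mem_support_iff, Finsupp.coe_add, Pi.add_apply]
      rcases Nat.eq_zero_or_pos (κ s) with h1 | h1
      · rcases Nat.eq_zero_or_pos (κ' s) with h2 | h2
        · simp [h1, h2]
        · rw [if_pos (by omega), if_neg (by omega), if_pos (by omega), zero_add]
          congr 2
          rw [hb κ κ', hb κ (κ' - Finsupp.single s 1), hp2, h1]
          simp
      · rcases Nat.eq_zero_or_pos (κ' s) with h2 | h2
        · rw [if_pos (by omega), if_pos (by omega), if_neg (by omega), add_zero]
          congr 2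
          rw [hb κ κ', hb (κ - Finsupp.single s 1) κ', hp1, e1, h2]
          simp
        · rw [if_pos (by omega), if_pos (by omega), if_pos (by omega), ← add_mul, ← C_add]
          congr 2
          rw [hb κ κ', hb (κ - Finsupp.single s 1) κ', hb κ (κ' - Finsupp.single s 1), hp1, hp2,
            e1, e2, ← add_mul, ← Nat.cast_add]
          congr 2
          obtain ⟨a, ha⟩ : ∃ a, κ s = a + 1 := ⟨κ s - 1, by omega⟩
          obtain ⟨b, hb'⟩ : ∃ b, κ' s = b + 1 := ⟨κ' s - 1, by omega⟩
          rw [ha, hb']
          have h3 : a + 1 + (b + 1) = (a + b + 1) + 1 := by ring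
          have h4 : a + 1 - 1 + (b + 1) = a + b + 1 := by omega
          have h5 : a + 1 + (b + 1 - 1) = a + b + 1 := by omega
          rw [h3, h4, h5, Nat.succ_sub_one, Nat.choose_succ_succ]
    have hc1 : ∀ s ∈ κ.support, κ - Finsupp.single s 1 + κ' = κ + κ' - Finsupp.single s 1 := by
      intro s hs
      have hs' : κ s ≠ 0 := Finsupp.mem_support_iff.mp hs
      ext t
      simp only [Finsupp.coe_add, Pi.add_apply, Finsupp.coe_tsub, Pi.sub_apply,
        Finsupp.single_apply]
      by_cases hst : s = t
      · subst hst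
        rw [if_pos rfl]
        omega
      · rw [if_neg hst]
        omega
    have hc2 : ∀ s ∈ κ'.support, κ + (κ' - Finsupp.single s 1) = κ + κ' - Finsupp.single s 1 := by
      intro s hs
      have hs' : κ' s ≠ 0 := Finsupp.mem_support_iff.mp hs
      ext t
      simp only [Finsupp.coe_add, Pi.add_apply, Finsupp.coe_tsub, Pi.sub_apply,
        Finsupp.single_apply]
      by_cases hst : s = t
      · subst hst
        rw [if_pos rfl]
        omega
      · rw [if_neg hst]
        omega
    rw [dd_mul_X κ' p j, dd_add, dd_mul_X, hp, dd_mul_X, mul_add, key κ κ' j.2]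
    rw [← mul_assoc, add_assoc]
    congr 1
    congr 1
    · by_cases h : j.2 ∈ κ.support
      · rw [if_pos h, if_pos h, hp, hc1 _ h]
      · rw [if_neg h, if_neg h]
    · by_cases h : j.2 ∈ κ'.support
      · rw [if_pos h, if_pos h, hp, hc2 _ h]
      · rw [if_neg h, if_neg h]
        unfold DD
        rw [map_zero, MvPolynomial.coeff_zero]

theorem dd_monomial_support (c : k) : ∀ (n : ℕ) (α : Ix r →₀ ℕ), α.sum (fun _ a => a) = n →
    ∀ (κ : ZMod r →₀ ℕ), ∀ β ∈ (DD κ (monomial α c)).support,
    β ≤ α ∧ ∀ s, ld α s = ld β s + κ s := by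
  classical
  intro n
  induction n with
  | zero =>
    intro α hα κ β hβ
    have hα0 : α = 0 := by
      ext j
      by_contra h
      have hj : j ∈ α.support := Finsupp.mem_support_iff.mpr h
      have : α j ≤ α.sum (fun _ a => a) :=
        Finset.single_le_sum (f := fun j => α j) (fun _ _ => Nat.zero_le _) hj
      simp only [Finsupp.coe_zero, Pi.zero_apply] at h
      omega
    subst hα0
    have : (monomial (0 : Ix r →₀ ℕ) c : MvPolynomial (Ix r) k) = C c := rfl
    rw [this, dd_C] at hβ
    by_cases hκ : κ = 0
    · rw [if_pos hκ] at hβ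
      have hβ0 : β = 0 := by
        by_contra h
        rw [MvPolynomial.mem_support_iff, MvPolynomial.coeff_C, if_neg (fun h' => h h'.symm)] at hβ
        exact hβ rfl
      subst hβ0
      refine ⟨le_refl _, fun s => ?_⟩
      rw [hκ]
      simp
    · rw [if_neg hκ] at hβ
      simp at hβ
  | succ n ih =>
    intro α hα κ β hβ
    obtain ⟨j, hj⟩ : ∃ j, α j ≠ 0 := by
      by_contra h
      push Not at h
      have : α = 0 := Finsupp.ext h
      rw [this] at hα
      simp at hα
    set α' := α - Finsupp.single j 1 with hα'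
    have hαe : α = α' + Finsupp.single j 1 := by
      ext i
      simp only [hα', Finsupp.coe_add, Pi.add_apply, Finsupp.coe_tsub, Pi.sub_apply,
        Finsupp.single_apply]
      by_cases hij : j = i
      · subst hij
        rw [if_pos rfl]
        omega
      · rw [if_neg hij]
        omega
    have hsum : α'.sum (fun _ a => a) = n := by
      have h1 : α.sum (fun _ a => a) = α'.sum (fun _ a => a) + 1 := by
        rw [hαe, Finsupp.sum_add_index' (fun _ => rfl) (fun _ _ _ => rfl),
          Finsupp.sum_single_index rfl]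
      omega
    have hmon : (monomial α c : MvPolynomial (Ix r) k) = monomial α' c * X j := by
      rw [hαe, MvPolynomial.X, MvPolynomial.monomial_mul, mul_one]
    have hldα : ∀ s, ld α s = ld α' s + (if s = j.2 then 1 else 0) := by
      intro s
      unfold ld
      rw [hαe]
      simp only [Finsupp.coe_add, Pi.add_apply, Finset.sum_add_distrib]
      congr 1
      by_cases hs : s = j.2
      · rw [if_pos hs, Finset.sum_eq_single j.1]
        · rw [Finsupp.single_apply, if_pos]
          rw [hs]
        · intro i _ hi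
          rw [Finsupp.single_apply, if_neg]
          intro h
          apply hi
          rw [h]
        · intro h
          exact absurd (Finset.mem_univ _) h
      · rw [if_neg hs]
        apply Finset.sum_eq_zero
        intro i _
        rw [Finsupp.single_apply, if_neg]
        intro h
        apply hs
        rw [h]
    rw [hmon, dd_mul_X] at hβ
    rcases Finset.mem_union.mp (MvPolynomial.support_add hβ) with h | h
    · rw [MvPolynomial.support_mul_X, Finset.mem_map] at h
      obtain ⟨β', hβ', hβe⟩ := h
      obtain ⟨h1, h2⟩ := ih α' hsum κ β' hβ'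
      have hβe' : β = β' + Finsupp.single j 1 := by
        rw [← hβe]
        rfl
      refine ⟨?_, fun s => ?_⟩
      · rw [hβe', hαe]
        exact add_le_add h1 le_rfl
      · have hldβ : ld β s = ld β' s + (if s = j.2 then 1 else 0) := by
          unfold ld
          rw [hβe']
          simp only [Finsupp.coe_add, Pi.add_apply, Finset.sum_add_distrib]
          congr 1
          by_cases hs : s = j.2
          · rw [if_pos hs, Finset.sum_eq_single j.1]
            · rw [Finsupp.single_apply, if_pos]
              rw [hs]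
            · intro i _ hi
              rw [Finsupp.single_apply, if_neg]
              intro h
              apply hi
              rw [h]
            · intro h
              exact absurd (Finset.mem_univ _) h
          · rw [if_neg hs]
            apply Finset.sum_eq_zero
            intro i _
            rw [Finsupp.single_apply, if_neg]
            intro h
            apply hs
            rw [h]
        rw [hldα, hldβ, h2 s]
        ring
    · by_cases hk : j.2 ∈ κ.support
      · rw [if_pos hk] at h
        obtain ⟨h1, h2⟩ := ih α' hsum _ β h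
        refine ⟨?_, fun s => ?_⟩
        · rw [hαe]
          exact le_trans h1 (le_add_of_nonneg_right zero_le)
        · rw [hldα, h2 s]
          have hk' : κ j.2 ≠ 0 := Finsupp.mem_support_iff.mp hk
          simp only [Finsupp.coe_tsub, Pi.sub_apply, Finsupp.single_apply]
          by_cases hs : s = j.2
          · rw [if_pos hs.symm, if_pos hs, hs]
            omega
          · rw [if_neg (fun h => hs h.symm), if_neg hs]
            omega
      · rw [if_neg hk] at h
        simp at h

theorem dd_support (κ : ZMod r →₀ ℕ) (P : MvPolynomial (Ix r) k) :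
    ∀ β ∈ (DD κ P).support, ∃ α ∈ P.support, β ≤ α ∧ ∀ s, ld α s = ld β s + κ s := by
  classical
  intro β hβ
  have hP : DD κ P = ∑ α ∈ P.support, DD κ (monomial α (coeff α P)) := by
    conv_lhs => rw [P.as_sum]
    rw [dd_sum]
  rw [hP] at hβ
  obtain ⟨α, hα, hαβ⟩ := Finset.mem_biUnion.mp (MvPolynomial.support_sum hβ)
  exact ⟨α, hα, dd_monomial_support _ _ α rfl κ β hαβ⟩

theorem redu_dd (p : ℕ) (κ : ZMod r →₀ ℕ) (P : MvPolynomial (Ix r) k) (h : Redu p P) :
    Redu p (DD κ P) := by
  intro β hβ j
  obtain ⟨α, hα, h1, _⟩ := dd_support κ P β hβ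
  exact lt_of_le_of_lt (h1 j) (h α hα j)

theorem aeval_eq [NeZero r] (c : ZMod r → k) (P : MvPolynomial (Ix r) k) :
    MvPolynomial.aeval (fun j : Ix r => X j + C (c j.2)) P =
      ∑ κ ∈ (tay P).support, C (∏ s, c s ^ κ s) * DD κ P := by
  have h : MvPolynomial.aeval (fun j : Ix r => X j + C (c j.2)) P =
      MvPolynomial.eval (fun s : ZMod r => (C (c s) : MvPolynomial (Ix r) k)) (tay P) := by
    induction P using MvPolynomial.induction_on with
    | C a =>
      rw [tay_C, MvPolynomial.eval_C, ← MvPolynomial.algebraMap_eq, AlgHom.commutes]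
    | add p q hp hq => rw [map_add, map_add, map_add, hp, hq]
    | mul_X p j hp =>
      rw [map_mul, map_mul, map_mul, hp, tay_X, MvPolynomial.aeval_X, map_add,
        MvPolynomial.eval_C, MvPolynomial.eval_X]
  rw [h, MvPolynomial.eval_eq']
  apply Finset.sum_congr rfl
  intro κ _
  unfold DD
  rw [mul_comm, map_prod]
  congr 1
  apply Finset.prod_congr rfl
  intro s _
  rw [map_pow]

theorem redu_aeval [NeZero r] (p : ℕ) (c : ZMod r → k) (P : MvPolynomial (Ix r) k)
    (h : Redu p P) :
    Redu p (MvPolynomial.aeval (fun j : Ix r => X j + C (c j.2)) P :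
      MvPolynomial (Ix r) k) := by
  classical
  rw [aeval_eq]
  intro β hβ j
  obtain ⟨κ, _, h1⟩ := Finset.mem_biUnion.mp (MvPolynomial.support_sum hβ)
  have h2 : β ∈ (DD κ P).support := by
    rw [MvPolynomial.mem_support_iff] at h1 ⊢
    intro h3
    apply h1
    rw [MvPolynomial.coeff_C_mul, h3, mul_zero]
  exact redu_dd p κ P h β h2 j

end

theorem tay_thm : TAYStmt := by
  intro r _ k _
  refine ⟨aeval_eq, dd_add, dd_C_mul, dd_zero, fun κ κ' P => dd_comp P κ κ', redu_dd,
    redu_aeval, ?_⟩
  intro κ P β hβ
  obtain ⟨α, hα, _, h⟩ := dd_support κ P β hβ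
  exact ⟨α, hα, h⟩

end Pool.Agent.HK.H1
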