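import Pool.Agent.Helper8_HK.Stmt2

/-! Module WLL of squad HK: the four variable lemma. -/

namespace Pool.Agent.HK.H1

open MvPolynomial

section

variable {k : Type} [Field k]

theorem degreeOf_shift (y : MvPolynomial (Fin 4) k) (D0 : ℕ)
    (h : ∀ α ∈ y.support, ∀ i, α i ≤ D0) (i : Fin 4) :
    degreeOf i (aeval (fun i : Fin 4 => (X i + 1 : MvPolynomial (Fin 4) k)) y) ≤ D0 := by
  rw [MvPolynomial.aeval_def, MvPolynomial.eval₂_eq']
  refine le_trans (degreeOf_sum_le _ _ _) (Finset.sup_le fun α hα => ?_)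
  rw [MvPolynomial.algebraMap_eq]
  refine le_trans (degreeOf_C_mul_le _ _ _) ?_
  refine le_trans (degreeOf_prod_le _ _ _) ?_
  have h1 : ∀ j ∈ (Finset.univ : Finset (Fin 4)),
      degreeOf i ((X j + 1 : MvPolynomial (Fin 4) k) ^ α j) ≤ if i = j then α j else 0 := by
    intro j _
    refine le_trans (degreeOf_pow_le _ _ _) ?_
    have h2 : degreeOf i (X j + 1 : MvPolynomial (Fin 4) k) ≤ if i = j then 1 else 0 := by
      refine le_trans (degreeOf_add_le _ _ _) ?_
      rw [degreeOf_X, degreeOf_one]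
      simp
    by_cases hij : i = j
    · rw [if_pos hij] at h2 ⊢
      calc α j * _ ≤ α j * 1 := Nat.mul_le_mul le_rfl h2
        _ = α j := mul_one _
    · rw [if_neg hij] at h2 ⊢
      rw [Nat.le_zero.mp h2, mul_zero]
  refine le_trans (Finset.sum_le_sum h1) ?_
  rw [Finset.sum_ite_eq, if_pos (Finset.mem_univ _)]
  exact h α hα i

/-- The multihomogeneous form of `P`. -/
noncomputable def hh (D0 : ℕ) (P : MvPolynomial (Fin 4) k)
    (a b : Fin 4 → Polynomial (MvPolynomial (Fin 4) k)) : Polynomial (MvPolynomial (Fin 4) k) :=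
  ∑ α ∈ P.support, Polynomial.C (C (coeff α P)) * ∏ i, (a i ^ α i * b i ^ (D0 - α i))

theorem hh_eq (D0 : ℕ) (P : MvPolynomial (Fin 4) k)
    (a b : Fin 4 → Polynomial (MvPolynomial (Fin 4) k)) (hb : ∀ i, b i ≠ 0)
    (hP : ∀ α ∈ P.support, ∀ i, α i ≤ D0) :
    algebraMap _ (FractionRing (Polynomial (MvPolynomial (Fin 4) k))) (hh D0 P a b) =
    (∏ i, (algebraMap _ (FractionRing (Polynomial (MvPolynomial (Fin 4) k))) (b i)) ^ D0) *
      eval₂ (((algebraMap (Polynomial (MvPolynomial (Fin 4) k))
        (FractionRing (Polynomial (MvPolynomial (Fin 4) k)))).comp Polynomial.C).comp C)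
        (fun i => algebraMap _ (FractionRing (Polynomial (MvPolynomial (Fin 4) k))) (a i) /
          algebraMap _ (FractionRing (Polynomial (MvPolynomial (Fin 4) k))) (b i)) P := by
  rw [MvPolynomial.eval₂_eq', Finset.mul_sum]
  unfold hh
  rw [map_sum]
  apply Finset.sum_congr rfl
  intro α hα
  rw [map_mul, map_prod, mul_left_comm]
  congr 1
  rw [← Finset.prod_mul_distrib]
  apply Finset.prod_congr rfl
  intro i _
  have hbi : algebraMap _ (FractionRing (Polynomial (MvPolynomial (Fin 4) k))) (b i) ≠ 0 := by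
    intro h
    exact hb i ((IsFractionRing.injective (Polynomial (MvPolynomial (Fin 4) k))
      (FractionRing (Polynomial (MvPolynomial (Fin 4) k)))) (by rw [h, map_zero]))
  rw [map_mul, map_pow, map_pow, div_pow]
  have e : D0 = (D0 - α i) + α i := by have := hP α hα i; omega
  conv_rhs => rw [e, pow_add]
  have hbi2 : (algebraMap _ (FractionRing (Polynomial (MvPolynomial (Fin 4) k))) (b i)) ^ (α i)
    ≠ 0 := pow_ne_zero _ hbi
  field_simp

theorem eval₂_shift {K : Type} [CommRing K] (ι : k →+* K) (x : Fin 4 → K)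
    (y : MvPolynomial (Fin 4) k) :
    eval₂ ι x (aeval (fun i : Fin 4 => (X i + 1 : MvPolynomial (Fin 4) k)) y) =
      eval₂ ι (fun i => x i + 1) y := by
  induction y using MvPolynomial.induction_on with
  | C a => rw [aeval_C, MvPolynomial.algebraMap_eq, eval₂_C, eval₂_C]
  | add p q hp hq => rw [map_add, eval₂_add, eval₂_add, hp, hq]
  | mul_X p j hp =>
    rw [map_mul, eval₂_mul, eval₂_mul, hp, aeval_X, eval₂_add, eval₂_X, eval₂_X, eval₂_one]

end

theorem natDegree_hh {k : Type} [Field k] (D0 e : ℕ) (P : MvPolynomial (Fin 4) k)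
    (hP : ∀ α ∈ P.support, (∀ i, α i ≤ D0) ∧ ∑ i, α i = e) :
    (hh D0 P (fun _ => -1) (fun i => 1 + Polynomial.X * Polynomial.C (X i))).natDegree
      ≤ 4 * D0 - e := by
  unfold hh
  apply Polynomial.natDegree_sum_le_of_forall_le
  intro α hα
  refine le_trans (Polynomial.natDegree_C_mul_le _ _) ?_
  refine le_trans (Polynomial.natDegree_prod_le _ _) ?_
  have h1 : ∀ i ∈ (Finset.univ : Finset (Fin 4)),
      ((-1 : Polynomial (MvPolynomial (Fin 4) k)) ^ α i *
        (1 + Polynomial.X * Polynomial.C (X i)) ^ (D0 - α i)).natDegree ≤ D0 - α i := by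
    intro i _
    have h2 : (1 + Polynomial.X * Polynomial.C (X i : MvPolynomial (Fin 4) k) :
        Polynomial (MvPolynomial (Fin 4) k)).natDegree ≤ 1 := by
      refine le_trans (Polynomial.natDegree_add_le _ _) ?_
      rw [Polynomial.natDegree_one]
      refine max_le (Nat.zero_le _) ?_
      refine le_trans (Polynomial.natDegree_mul_C_le _ _) ?_
      exact Polynomial.natDegree_X_le
    refine le_trans Polynomial.natDegree_mul_le ?_
    have h3 : ((-1 : Polynomial (MvPolynomial (Fin 4) k)) ^ α i).natDegree = 0 := by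
      rw [← Polynomial.C_1, ← Polynomial.C_neg, ← Polynomial.C_pow, Polynomial.natDegree_C]
    rw [h3, zero_add]
    refine le_trans Polynomial.natDegree_pow_le ?_
    calc (D0 - α i) * _ ≤ (D0 - α i) * 1 := Nat.mul_le_mul le_rfl h2
      _ = D0 - α i := mul_one _
  refine le_trans (Finset.sum_le_sum h1) ?_
  obtain ⟨h4, h5⟩ := hP α hα
  rw [Fin.sum_univ_four] at h5 ⊢
  have := h4 0
  have := h4 1
  have := h4 2
  have := h4 3
  omega

theorem wll : WLLStmt := by
  intro k _ y D0 d hy hz hd
  classical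
  set z := aeval (fun i : Fin 4 => (X i + 1 : MvPolynomial (Fin 4) k)) y - y with hzdef
  have hyD : ∀ α ∈ y.support, ∀ i, α i ≤ D0 := fun α hα => (hy α hα).1
  have hzD : ∀ β ∈ z.support, ∀ i, β i ≤ D0 := by
    intro β hβ i
    have h1 : degreeOf i z ≤ D0 := by
      rw [hzdef]
      refine le_trans (degreeOf_sub_le _ _ _) (max_le (degreeOf_shift y D0 hyD i) ?_)
      rw [degreeOf_le_iff]
      exact fun m hm => hyD m hm i
    exact (degreeOf_le_iff.mp h1) β hβ
  set a : Fin 4 → Polynomial (MvPolynomial (Fin 4) k) := fun _ => -1 with ha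
  set b : Fin 4 → Polynomial (MvPolynomial (Fin 4) k) :=
    fun i => 1 + Polynomial.X * Polynomial.C (X i) with hbdef
  have hb : ∀ i, b i ≠ 0 := by
    intro i h
    have := congrArg (Polynomial.eval 0) h
    simp [hbdef] at this
  set Rf := algebraMap (Polynomial (MvPolynomial (Fin 4) k))
    (FractionRing (Polynomial (MvPolynomial (Fin 4) k))) with hRf
  have hinj : Function.Injective Rf := IsFractionRing.injective _ _
  have hid : hh D0 z a b = hh D0 y (fun i => Polynomial.X * Polynomial.C (X i)) b -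
      hh D0 y a b := by
    apply hinj
    rw [map_sub, hh_eq D0 z a b hb hzD, hh_eq D0 y _ b hb hyD, hh_eq D0 y a b hb hyD, ← mul_sub]
    congr 1
    rw [hzdef, eval₂_sub, eval₂_shift]
    congr 2
    funext i
    have hbi : Rf (b i) ≠ 0 := by
      intro h
      exact hb i (hinj (by rw [h, map_zero]))
    have h1 : Rf (a i) + Rf (b i) = Rf (Polynomial.X * Polynomial.C (X i)) := by
      rw [← map_add]
      congr 1
      simp only [ha, hbdef]
      ring
    rw [← hRf, ← h1, add_div, div_self hbi]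
  have hlead : hh D0 y (fun i => Polynomial.X * Polynomial.C (X i)) b =
      Polynomial.X ^ d * ∑ α ∈ y.support, Polynomial.C (C (coeff α y)) *
        ∏ i, (Polynomial.C (X i) ^ α i * b i ^ (D0 - α i)) := by
    unfold hh
    rw [Finset.mul_sum]
    apply Finset.sum_congr rfl
    intro α hα
    have h1 : ∏ i : Fin 4, ((Polynomial.X * Polynomial.C (X i : MvPolynomial (Fin 4) k)) ^ α i *
        b i ^ (D0 - α i)) = Polynomial.X ^ d * ∏ i : Fin 4,
          (Polynomial.C (X i : MvPolynomial (Fin 4) k) ^ α i * b i ^ (D0 - α i)) := by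
      rw [← (hy α hα).2, ← Finset.prod_pow_eq_pow_sum, ← Finset.prod_mul_distrib]
      apply Finset.prod_congr rfl
      intro i _
      rw [mul_pow, mul_assoc]
    rw [h1]
    ring
  set Q := ∑ α ∈ y.support, Polynomial.C (C (coeff α y)) *
        ∏ i, (Polynomial.C (X i) ^ α i * b i ^ (D0 - α i)) with hQ
  have hQ0 : Q = 0 := by
    by_contra hne
    have h1 : (Polynomial.X ^ d * Q).natDegree < d := by
      have h2 : Polynomial.X ^ d * Q = hh D0 z a b + hh D0 y a b := by
        rw [hid, hlead]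
        ring
      rw [h2]
      refine lt_of_le_of_lt (Polynomial.natDegree_add_le _ _) (max_lt ?_ ?_)
      · have hz' : ∀ β ∈ z.support, (∀ i, β i ≤ D0) ∧ ∑ i, β i = d - 1 :=
          fun β hβ => ⟨hzD β hβ, by have := hz β hβ; omega⟩
        refine lt_of_le_of_lt (natDegree_hh D0 (d - 1) z hz') ?_
        omega
      · refine lt_of_le_of_lt (natDegree_hh D0 d y hy) ?_
        omega
    rw [mul_comm, Polynomial.natDegree_mul_X_pow _ hne] at h1
    omega
  have h0 : Polynomial.eval 0 Q = y := by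
    rw [hQ, Polynomial.eval_finsetSum]
    conv_rhs => rw [← MvPolynomial.eval₂_eta y, MvPolynomial.eval₂_eq']
    apply Finset.sum_congr rfl
    intro α _
    rw [Polynomial.eval_mul, Polynomial.eval_C, Polynomial.eval_prod]
    congr 1
    apply Finset.prod_congr rfl
    intro i _
    simp [hbdef]
  rw [← h0, hQ0, Polynomial.eval_zero]

end Pool.Agent.HK.H1
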